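import Pool.Agent.Helper78.LM.Goals
import Mathlib.FieldTheory.Finite.GaloisField

/-! # Packet HSB: existence of a good feedback vector -/

namespace Pool.Agent.Helper55.LM

open Pool.Agent.Helper51.ZP Pool.Agent.Helper78.LM Finset

/-- a nonzero polynomial of degree less than `T` has at most `T` roots -/
theorem card_roots_le {F : Type} [Field F] [Fintype F] [DecidableEq F] [Algebra (ZMod 2) F]
    (T : ℕ) (e : ℕ → ZMod 2) (he : ∃ j < T, e j ≠ 0) :
    (univ.filter (fun α : F => ∑ j ∈ range T, e j • α ^ j = 0)).card ≤ T := by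
  set P : Polynomial (ZMod 2) := ∑ j ∈ range T, Polynomial.C (e j) * Polynomial.X ^ j with hP
  have hcoeff : ∀ j < T, P.coeff j = e j := by
    intro j hj
    rw [hP, Polynomial.finset_sum_coeff]
    simp only [Polynomial.coeff_C_mul, Polynomial.coeff_X_pow]
    rw [sum_eq_single j]
    · simp
    · intro b _ hb
      have : ¬ (j = b) := fun h => hb h.symm
      simp [this]
    · intro h
      exact absurd (mem_range.2 hj) h
  have hP0 : P ≠ 0 := by
    intro h
    obtain ⟨j, hj, hje⟩ := he
    apply hje
    rw [← hcoeff j hj, h]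
    simp
  have hdeg : P.natDegree ≤ T := by
    rw [hP]
    refine Polynomial.natDegree_sum_le_of_forall_le _ _ fun j hj => ?_
    refine (Polynomial.natDegree_C_mul_X_pow_le _ _).trans ?_
    exact (mem_range.1 hj).le
  have hinj : Function.Injective (algebraMap (ZMod 2) F) := FaithfulSMul.algebraMap_injective _ _
  have h3 : (P.map (algebraMap (ZMod 2) F)) ≠ 0 := (Polynomial.map_ne_zero_iff hinj).2 hP0
  have h4 : (univ.filter (fun α : F => ∑ j ∈ range T, e j • α ^ j = 0)) ⊆
      (P.map (algebraMap (ZMod 2) F)).roots.toFinset := by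
    intro α hα
    rw [mem_filter] at hα
    rw [Multiset.mem_toFinset, Polynomial.mem_roots h3, Polynomial.IsRoot.def,
      Polynomial.eval_map_algebraMap, hP]
    simp only [map_sum, map_mul, Polynomial.aeval_C, map_pow, Polynomial.aeval_X]
    rw [← hα.2]
    exact sum_congr rfl fun j _ => (Algebra.smul_def _ _).symm
  exact (card_le_card h4).trans ((Multiset.toFinset_card_le _).trans
      ((Polynomial.card_roots' _).trans ((Polynomial.natDegree_map_le).trans hdeg)))

theorem hsb : HsbStmt := by
  classical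
  intro ι N T I e hN
  obtain ⟨k, hk1, hk2⟩ := vecs_spec N
  have hk0 : 0 < k := by
    rcases Nat.eq_zero_or_pos k with h | h
    · subst h; simp at hk1; omega
    · exact h
  haveI : Fact (Nat.Prime 2) := ⟨Nat.prime_two⟩
  set F := GaloisField 2 k with hFdef
  have hF : Module.finrank (ZMod 2) F = k := GaloisField.finrank 2 hk0.ne'
  have hcard' : Nat.card F = 2 ^ k := GaloisField.card 2 k hk0.ne'
  haveI : Finite F := Nat.finite_of_card_ne_zero (by rw [hcard']; positivity)
  haveI : Fintype F := Fintype.ofFinite F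
  have hcard : Fintype.card F = 2 ^ k := by rw [← Nat.card_eq_fintype_card, hcard']
  set J : F → Finset ι := fun α => I.filter fun i => (∃ j < T, e i j ≠ 0) ∧
    ∑ j ∈ range T, e i j • α ^ j = 0 with hJ
  have h1 : ∑ α : F, (J α).card ≤ T * I.card := by
    have h2 : ∑ α : F, (J α).card =
        ∑ i ∈ I, (univ.filter fun α : F => (∃ j < T, e i j ≠ 0) ∧
          ∑ j ∈ range T, e i j • α ^ j = 0).card := by
      simp only [hJ, card_filter]
      exact sum_comm
    rw [h2, mul_comm, ← smul_eq_mul, ← sum_const]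
    refine sum_le_sum fun i _ => ?_
    by_cases hi : ∃ j < T, e i j ≠ 0
    · refine le_trans (card_le_card ?_) (card_roots_le (F := F) T (e i) hi)
      intro α hα
      rw [mem_filter] at hα ⊢
      exact ⟨hα.1, hα.2.2⟩
    · have : (univ.filter fun α : F => (∃ j < T, e i j ≠ 0) ∧
          ∑ j ∈ range T, e i j • α ^ j = 0) = ∅ := by
        rw [filter_eq_empty_iff]
        intro α _ h
        exact hi h.1
      rw [this, card_empty]
      exact Nat.zero_le _
  obtain ⟨α, -, hα⟩ : ∃ α ∈ (univ : Finset F), Fintype.card F * (J α).card ≤ T * I.card := by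
    apply exists_le_of_sum_le univ_nonempty
    rw [← mul_sum, sum_const, smul_eq_mul, card_univ]
    exact Nat.mul_le_mul_left _ h1
  obtain ⟨c, hc⟩ := powGen_rec hF α
  refine ⟨(List.range k).map fun j => z2b (c j), (hk2 _).2 (by simp), ?_⟩
  refine le_trans (Nat.mul_le_mul (hk1.trans hcard.ge) (card_le_card ?_)) hα
  intro i hi
  rw [mem_filter] at hi
  rw [hJ, mem_filter]
  refine ⟨hi.1, hi.2.1, ?_⟩
  rw [← Module.forall_dual_apply_eq_zero_iff (ZMod 2)]
  intro φ
  have h5 := hi.2.2 ((List.range k).map fun j => z2b (φ (α ^ j))) ((hk2 _).2 (by simp))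
  rw [lprod, lfsr_eq hk0 c (fun i => φ (α ^ i)) (hc φ) T] at h5
  rw [map_sum, ← h5]
  refine sum_congr rfl fun j hj => ?_
  rw [map_smul, smul_eq_mul, mul_comm]
  congr 1
  have hj' : j < ((List.range T).map (fun i => z2b (φ (α ^ i)))).length := by
    simpa using mem_range.1 hj
  rw [List.getD_eq_getElem _ _ hj']
  simp

end Pool.Agent.Helper55.LM
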